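import Pool.Agent.X24.RZ.AvgBase

/-!
# Short covers by two even subgraphs of graphs with few vertices of odd degree

A finite graph with vertex set `V` and edge set `E` (parallel edges and loops are allowed) is given by
the maps `src, dst : E → V`.

* `cut src dst X`: the edges with exactly one end in `X`.
* `deg src dst C v`: the number of ends at `v` of the edges of `C` (loops count twice).
* `IsEven src dst C`: every vertex is incident with an even number of edges of `C`.

Proof.  All vertices of even degree are split off, and the odd vertices get degree `k`, so that a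
`k`-graph `p` on the odd vertices remains (`Pool.Agent.H185F`, after Zhang); parity subgraphs of `p` pull
back to parity subgraphs of the graph, with the same weight if the weights are added up.  By Edmonds'
theorem `p` has a perfect matching `M` with `w (M) ≤ w (p) / k` that has exactly one edge in every cut
of `k` edges with odd sides.  If `p` has at most `2 k + 2` vertices, then `M` contains no odd cut: such a
cut would have at least `k` and at most `k + 1` edges, so exactly `k`.  Hence `p - M` contains a parity
subgraph of `p`, by linear algebra over the field with two elements, and `M`, this parity subgraph and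
the rest are three parity subgraphs; the complements of the second and of the third cover all edges.
-/

set_option autoImplicit false

namespace Pool.Agent.Results.MP_d47134_co.FewOddVertices

open Finset

/-- the edges with exactly one end in `X` -/
def cut {V E : Type} [DecidableEq V] [Fintype E] (src dst : E → V) (X : Finset V) : Finset E :=
  univ.filter (fun e => ¬ (src e ∈ X ↔ dst e ∈ X))

/-- the number of ends at `v` of the edges of `C` (a loop at `v` counts twice) -/
def deg {V E : Type} [DecidableEq V] (src dst : E → V) (C : Finset E) (v : V) : ℕ :=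
  (C.filter (fun e => src e = v)).card + (C.filter (fun e => dst e = v)).card

/-- `C` is an even subgraph: all degrees in `C` are even -/
def IsEven {V E : Type} [DecidableEq V] (src dst : E → V) (C : Finset E) : Prop :=
  ∀ v, Even (deg src dst C v)

section
variable {V E : Type} [Fintype V] [DecidableEq V] [Fintype E] [DecidableEq E]
open Pool.Agent.X24.RZ Pool.Agent.H185F Pool.Agent.H239R2.Cover

theorem deg_cast (src dst : E → V) (P : E → Prop) [DecidablePred P] (v : V) :
    ((deg src dst (univ.filter P) v : ℕ) : ZMod 2) =
      ∑ g, (if P g then (1 : ZMod 2) else 0) * hh src dst g v := by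
  unfold deg hh
  push_cast
  rw [filter_filter, filter_filter, card_filter, card_filter]
  push_cast
  rw [← sum_add_distrib]
  refine sum_congr rfl fun g _ => ?_
  by_cases h1 : P g <;> by_cases h2 : src g = v <;> by_cases h3 : dst g = v <;> simp [h1, h2, h3]

theorem deg_odd (src dst : E → V) (v : V) :
    Odd (deg src dst univ v) ↔ Odd (ecut src dst {v}).card := by
  have h1 : ((deg src dst univ v : ℕ) : ZMod 2) = (((ecut src dst {v}).card : ℕ) : ZMod 2) := by
    have h2 := deg_cast src dst (fun _ => True) v
    rw [filter_true_of_mem (fun _ _ => trivial)] at h2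
    rw [h2]
    simp only [if_true]
    rw [sum_hh (fun _ => 1), sum_const, nsmul_eq_mul, mul_one]
  rw [← ZMod.natCast_eq_one_iff_odd, ← ZMod.natCast_eq_one_iff_odd, h1]

theorem odds_le (src dst : E → V) {N : ℕ}
    (h : (univ.filter fun v => Odd (deg src dst univ v)).card ≤ 2 * N + 1) :
    (univ.filter fun v => Odd (ecut src dst {v}).card).card ≤ 2 * N := by
  have e : (univ.filter fun v => Odd (deg src dst univ v)) =
      univ.filter fun v => Odd (ecut src dst {v}).card := by
    ext v
    rw [mem_filter, mem_filter, deg_odd]
  have hev : Even (univ.filter fun v => Odd (ecut src dst {v}).card).card := by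
    have h1 := Pool.Agent.X24.RZ.parity_sum src dst univ
    have h2 : ecut src dst univ = ∅ := by
      ext g
      simp [mem_ecut]
    rw [h2, card_empty] at h1
    have h3 : Even (∑ x, (ecut src dst {x}).card) := by
      rw [Nat.even_iff]
      omega
    exact (Finset.even_sum_iff_even_card_odd _).1 h3
  rw [e] at h
  obtain ⟨m, hm⟩ := hev
  omega

theorem even_compl {src dst : E → V} {c : E → Fin 3} (i : Fin 3)
    (h : ∀ v, ∑ g, (if c g = i then (1 : ZMod 2) else 0) * hh src dst g v =
      ∑ g, 1 * hh src dst g v) : IsEven src dst (univ.filter fun e => ¬ c e = i) := by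
  intro v
  rw [← ZMod.natCast_eq_zero_iff_even, deg_cast]
  have h2 : ∑ g, (if ¬ c g = i then (1 : ZMod 2) else 0) * hh src dst g v =
      ∑ g, 1 * hh src dst g v - ∑ g, (if c g = i then (1 : ZMod 2) else 0) * hh src dst g v := by
    rw [← sum_sub_distrib]
    refine sum_congr rfl fun g _ => ?_
    by_cases h3 : c g = i <;> simp [h3]
  rw [h2, h v, sub_self]

end

/-- Let `G` be a finite graph (loops and parallel edges allowed), let `k ≥ 3` be odd, let `G` have at
most `2 k + 3` vertices of odd degree, and let every cut with an odd number of edges have at least `k`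
edges.  Then for all nonnegative edge weights there are two even subgraphs which cover all edges and
have total weight at most `(k + 1) / k` times the weight of `G`. -/
theorem result (V E : Type) [Fintype V] [DecidableEq V] [Fintype E] [DecidableEq E]
    (src dst : E → V) (k : ℕ) (hk : Odd k) (hk3 : 3 ≤ k)
    (hfew : (univ.filter fun v => Odd (deg src dst univ v)).card ≤ 2 * k + 3)
    (hcut : ∀ X : Finset V, Odd (cut src dst X).card → k ≤ (cut src dst X).card)
    (w : E → ℝ) (hw : ∀ e, 0 ≤ w e) :
    ∃ C₁ C₂ : Finset E, IsEven src dst C₁ ∧ IsEven src dst C₂ ∧ C₁ ∪ C₂ = univ ∧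
      (k : ℝ) * (∑ e ∈ C₁, w e + ∑ e ∈ C₂, w e) ≤ ((k : ℝ) + 1) * ∑ e, w e := by
  obtain ⟨c, hc, hcw⟩ := Pool.Agent.X24.RZ.sh_avg hk hk3 src dst hcut (by
    have := odds_le src dst (N := k + 1) (by omega)
    omega) w hw
  refine ⟨univ.filter fun e => ¬ c e = 2, univ.filter fun e => ¬ c e = 1,
    even_compl 2 fun v => hc v 2, even_compl 1 fun v => hc v 1, ?_, ?_⟩
  · ext e
    simp only [mem_union, mem_filter, mem_univ, true_and, iff_true]
    by_contra h
    push Not at h
    exact absurd (h.1.symm.trans h.2) (by decide)
  · have h1 : ∑ e ∈ univ.filter (fun e => ¬ c e = 2), w e +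
        ∑ e ∈ univ.filter (fun e => ¬ c e = 1), w e =
        ∑ e, w e + ∑ e, (if c e = 0 then w e else 0) := by
      rw [sum_filter, sum_filter, ← sum_add_distrib, ← sum_add_distrib]
      refine sum_congr rfl fun e _ => ?_
      have h3 : ∀ i : Fin 3, i = 0 ∨ i = 1 ∨ i = 2 := by decide
      rcases h3 (c e) with h | h | h <;> simp [h]
    rw [h1]
    linarith

end Pool.Agent.Results.MP_d47134_co.FewOddVertices
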