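import Pool.Agent.X24.RZ.GenBase

/-!
# Short covers by two even subgraphs of regular graphs without large odd cuts that are matchings

A finite graph with vertex set `V` and edge set `E` (parallel edges and loops are allowed) is given by
the maps `src, dst : E → V`.

* `cut src dst X`: the edges with exactly one end in `X`.
* `deg src dst C v`: the number of ends at `v` of the edges of `C` (loops count twice).
* `IsEven src dst C`: every vertex is incident with an even number of edges of `C`.
* `IsMatching src dst C`: no two edges of `C` have a common end.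

Proof.  Let the graph be `k`-regular, with at least `k` edges in every odd cut.  By Edmonds' theorem
there is a perfect matching `M` with `w (M) ≤ w (E) / k` that has exactly one edge in every cut
of `k` edges with odd sides.  So `M` contains no odd cut with `k` edges, and it contains no larger odd
cut since these are not matchings.  Hence `E - M` contains a parity subgraph, by linear algebra over the
field with two elements, and `M`, this parity subgraph and the rest are three parity subgraphs; the
complements of the second and of the third cover all edges.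
-/

set_option autoImplicit false

namespace Pool.Agent.Results.MP_d47134_co.NoMatchingCuts

open Finset

/-- the edges with exactly one end in `X` -/
def cut {V E : Type} [DecidableEq V] [Fintype E] (src dst : E → V) (X : Finset V) : Finset E :=
  univ.filter (fun e => ¬ (src e ∈ X ↔ dst e ∈ X))

/-- the number of ends at `v` of the edges of `C` (a loop at `v` counts twice) -/
def deg {V E : Type} [DecidableEq V] (src dst : E → V) (C : Finset E) (v : V) : ℕ :=
  (C.filter (fun e => src e = v)).card + (C.filter (fun e => dst e = v)).card

/-- `C` is an even subgraph: all degrees in `C` are even -/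
def IsEven {V E : Type} [DecidableEq V] (src dst : E → V) (C : Finset E) : Prop :=
  ∀ v, Even (deg src dst C v)

/-- no two edges of `C` have a common end -/
def IsMatching {V E : Type} (src dst : E → V) (C : Finset E) : Prop :=
  ∀ e ∈ C, ∀ f ∈ C, e ≠ f → src e ≠ src f ∧ src e ≠ dst f ∧ dst e ≠ src f ∧ dst e ≠ dst f

section
variable {V E : Type} [Fintype V] [DecidableEq V] [Fintype E] [DecidableEq E]
open Pool.Agent.X24.RZ Pool.Agent.H185F Pool.Agent.H239R2.Cover

theorem deg_cast (src dst : E → V) (P : E → Prop) [DecidablePred P] (v : V) :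
    ((deg src dst (univ.filter P) v : ℕ) : ZMod 2) =
      ∑ g, (if P g then (1 : ZMod 2) else 0) * hh src dst g v := by
  unfold deg hh
  push_cast
  rw [filter_filter, filter_filter, card_filter, card_filter]
  push_cast
  rw [← sum_add_distrib]
  refine sum_congr rfl fun g _ => ?_
  by_cases h1 : P g <;> by_cases h2 : src g = v <;> by_cases h3 : dst g = v <;> simp [h1, h2, h3]

theorem common_end {src dst : E → V} {X : Finset V} (h : ¬ IsMatching src dst (cut src dst X)) :
    ∃ v, 2 ≤ (ecut src dst X ∩ ecut src dst {v}).card := by
  unfold IsMatching at h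
  push Not at h
  obtain ⟨e, he, f, hf, hne, h⟩ := h
  have key : ∀ g ∈ cut src dst X, ∀ v, src g = v ∨ dst g = v → g ∈ ecut src dst X ∩ ecut src dst {v} := by
    intro g hg v hv
    have h1 : g ∈ ecut src dst X := hg
    rw [mem_inter]
    refine ⟨h1, ?_⟩
    rw [mem_ecut] at h1 ⊢
    rw [mem_singleton, mem_singleton]
    intro h2
    apply h1
    rcases hv with hv | hv
    · rw [hv, h2.1 hv]
    · rw [hv, h2.2 hv]
  have two : ∀ v, (src e = v ∨ dst e = v) → (src f = v ∨ dst f = v) →
      ∃ v, 2 ≤ (ecut src dst X ∩ ecut src dst {v}).card := fun v h1 h2 =>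
    ⟨v, one_lt_card.2 ⟨e, key e he v h1, f, key f hf v h2, hne⟩⟩
  by_cases h1 : src e = src f
  · exact two _ (Or.inl h1) (Or.inl rfl)
  by_cases h2 : src e = dst f
  · exact two _ (Or.inl h2) (Or.inr rfl)
  by_cases h3 : dst e = src f
  · exact two _ (Or.inr h3) (Or.inl rfl)
  · exact two _ (Or.inr (h h1 h2 h3)) (Or.inr rfl)

theorem even_compl {src dst : E → V} {c : E → Fin 3} (i : Fin 3)
    (h : ∀ v, ∑ g, (if c g = i then (1 : ZMod 2) else 0) * hh src dst g v =
      ∑ g, 1 * hh src dst g v) : IsEven src dst (univ.filter fun e => ¬ c e = i) := by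
  intro v
  rw [← ZMod.natCast_eq_zero_iff_even, deg_cast]
  have h2 : ∑ g, (if ¬ c g = i then (1 : ZMod 2) else 0) * hh src dst g v =
      ∑ g, 1 * hh src dst g v - ∑ g, (if c g = i then (1 : ZMod 2) else 0) * hh src dst g v := by
    rw [← sum_sub_distrib]
    refine sum_congr rfl fun g _ => ?_
    by_cases h3 : c g = i <;> simp [h3]
  rw [h2, h v, sub_self]

end

/-- Let `k ≥ 3` be odd and let `G` be a finite `k`-regular graph (every vertex is incident with exactly
`k` edges that are not loops) such that every cut with an odd number of edges has at least `k` edges,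
and no cut with an odd number of edges and more than `k` edges is a matching.  Then for all nonnegative
edge weights there are three disjoint parity subgraphs covering all edges, the first of weight at most
`w (E) / k`, and two even subgraphs which cover all edges and have total weight at most `(k + 1) / k`
times the weight of `G`. -/
theorem result (V E : Type) [Fintype V] [DecidableEq V] [Fintype E] [DecidableEq E]
    (src dst : E → V) (k : ℕ) (hk : Odd k) (hk3 : 3 ≤ k)
    (hreg : ∀ v, (cut src dst {v}).card = k)
    (hcut : ∀ X : Finset V, Odd (cut src dst X).card → k ≤ (cut src dst X).card)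
    (hnm : ∀ X : Finset V, Odd (cut src dst X).card → k < (cut src dst X).card →
      ¬ IsMatching src dst (cut src dst X))
    (w : E → ℝ) (hw : ∀ e, 0 ≤ w e) :
    (∃ P : Fin 3 → Finset E, (∀ e, ∃! i, e ∈ P i) ∧ (∀ i, IsEven src dst (P i)ᶜ) ∧
      (k : ℝ) * ∑ e ∈ P 0, w e ≤ ∑ e, w e) ∧
    ∃ C₁ C₂ : Finset E, IsEven src dst C₁ ∧ IsEven src dst C₂ ∧ C₁ ∪ C₂ = univ ∧
      (k : ℝ) * (∑ e ∈ C₁, w e + ∑ e ∈ C₂, w e) ≤ ((k : ℝ) + 1) * ∑ e, w e := by
  obtain ⟨c, hc, hcw⟩ := Pool.Agent.X24.RZ.sh_gen hk hk3 src dst hcut hreg
    (fun X h1 h2 => common_end (hnm X h1 h2)) w hw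
  refine ⟨⟨fun i => univ.filter fun e => c e = i, fun e => ⟨c e, mem_filter.2 ⟨mem_univ _, rfl⟩,
    fun i hi => (mem_filter.1 hi).2.symm⟩, fun i => ?_, ?_⟩,
    univ.filter fun e => ¬ c e = 2, univ.filter fun e => ¬ c e = 1,
    even_compl 2 fun v => hc v 2, even_compl 1 fun v => hc v 1, ?_, ?_⟩
  · have e1 : (univ.filter fun e => c e = i)ᶜ = univ.filter fun e => ¬ c e = i := by
      ext e
      simp
    rw [e1]
    exact even_compl i fun v => hc v i
  · rw [sum_filter]
    exact hcw
  · ext e
    simp only [mem_union, mem_filter, mem_univ, true_and, iff_true]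
    by_contra h
    push Not at h
    exact absurd (h.1.symm.trans h.2) (by decide)
  · have h1 : ∑ e ∈ univ.filter (fun e => ¬ c e = 2), w e +
        ∑ e ∈ univ.filter (fun e => ¬ c e = 1), w e =
        ∑ e, w e + ∑ e, (if c e = 0 then w e else 0) := by
      rw [sum_filter, sum_filter, ← sum_add_distrib, ← sum_add_distrib]
      refine sum_congr rfl fun e _ => ?_
      have h3 : ∀ i : Fin 3, i = 0 ∨ i = 1 ∨ i = 2 := by decide
      rcases h3 (c e) with h | h | h <;> simp [h]
    rw [h1]
    linarith

end Pool.Agent.Results.MP_d47134_co.NoMatchingCuts
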